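import Mathlib

/-!
# Commutator laws of weight at least four on a solubilizer do not force nilpotency

The group is `PGL(2,7)` in its action on eight points, and `x` is an `8`-cycle.  The solubilizer
of `x` is the normalizer of `⟨x⟩`, a dihedral group of order `16` and nilpotency class `3`.
-/

namespace Pool.Agent.Results.MP_7555fa_al.SolubilizerLaws

/-- The solubilizer of `x`: all `y` such that `⟨x, y⟩` is soluble. -/
def Sol {G : Type} [Group G] (x : G) : Set G :=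
  {y | Group.IsSolvable (Subgroup.closure ({x, y} : Set G))}

/-- The left-normed commutator `[a, b₁, …, bₘ]` for `l = [b₁, …, bₘ]`,
where `[c, b] = c⁻¹ b⁻¹ c b`. -/
def leftNormed {G : Type} [Group G] (a : G) (l : List G) : G :=
  l.foldl (fun c b => c⁻¹ * b⁻¹ * c * b) a

/-- A permutation of `Fin 8` given by its table and the table of its inverse. -/
abbrev Pm : Type := Equiv.Perm (Fin 8)

def X : Pm := ⟨![1, 2, 3, 4, 5, 6, 7, 0], ![7, 0, 1, 2, 3, 4, 5, 6], by decide, by decide⟩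

def s : Pm := ⟨![0, 7, 6, 5, 4, 3, 2, 1], ![0, 7, 6, 5, 4, 3, 2, 1], by decide, by decide⟩

def r0 : Pm := ⟨![0, 1, 3, 5, 6, 4, 7, 2], ![0, 1, 7, 2, 5, 3, 4, 6], by decide, by decide⟩
def r1 : Pm := ⟨![0, 1, 4, 6, 2, 7, 3, 5], ![0, 1, 4, 6, 2, 7, 3, 5], by decide, by decide⟩
def r2 : Pm := ⟨![0, 1, 5, 4, 7, 6, 2, 3], ![0, 1, 6, 7, 3, 2, 5, 4], by decide, by decide⟩
def r3 : Pm := ⟨![0, 2, 1, 7, 5, 4, 6, 3], ![0, 2, 1, 7, 5, 4, 6, 3], by decide, by decide⟩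
def r4 : Pm := ⟨![0, 3, 7, 5, 2, 1, 6, 4], ![0, 5, 4, 1, 7, 3, 6, 2], by decide, by decide⟩

/-- Representatives of the double cosets of `⟨X⟩` outside the dihedral group. -/
def r : Fin 5 → Pm := ![r0, r1, r2, r3, r4]

lemma X_pow_8 : X ^ 8 = 1 := by decide

lemma X_pow_mod (b : ℕ) : X ^ b = X ^ (b % 8) := by
  conv_lhs => rw [← Nat.div_add_mod b 8, pow_add, pow_mul, X_pow_8, one_pow, one_mul]

lemma table : ∀ (k : Fin 5) (j : Fin 8),
    (∃ i : Fin 8, r k * X ^ (j : ℕ) * r1 = X ^ (i : ℕ)) ∨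
    (∃ i : Fin 8, r k * X ^ (j : ℕ) * r1 = s * X ^ (i : ℕ)) ∨
    (∃ (a : Fin 8) (l : Fin 5) (b : Fin 8), r k * X ^ (j : ℕ) * r1 = X ^ (a : ℕ) * r l * X ^ (b : ℕ)) := by
  decide

lemma s_X : ∀ i : Fin 8, s * X ^ (i : ℕ) * r1 = X ^ (7 * (i : ℕ) + 6) * r4 * X ^ 4 := by
  decide

/-- The group `PGL(2,7)`. -/
def PGL : Subgroup Pm := Subgroup.closure {X, r1}

/-- Normal form of the elements of the group. -/
lemma normal_form (g : Pm) (hg : g ∈ PGL) :
    (∃ i : ℕ, g = X ^ i) ∨ (∃ i : ℕ, g = s * X ^ i) ∨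
    (∃ (a : ℕ) (l : Fin 5) (b : ℕ), g = X ^ a * r l * X ^ b) := by
  have hXinv : X⁻¹ = X ^ 7 := by decide
  have hr1 : r1⁻¹ = r1 := by decide
  have stepX : ∀ (h : Pm) (m : ℕ), ((∃ i : ℕ, h = X ^ i) ∨ (∃ i : ℕ, h = s * X ^ i) ∨
      (∃ (a : ℕ) (l : Fin 5) (b : ℕ), h = X ^ a * r l * X ^ b)) →
      ((∃ i : ℕ, h * X ^ m = X ^ i) ∨ (∃ i : ℕ, h * X ^ m = s * X ^ i) ∨
      (∃ (a : ℕ) (l : Fin 5) (b : ℕ), h * X ^ m = X ^ a * r l * X ^ b)) := by
    rintro h m (⟨i, rfl⟩ | ⟨i, rfl⟩ | ⟨a, l, b, rfl⟩)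
    · exact Or.inl ⟨i + m, by rw [pow_add]⟩
    · exact Or.inr (Or.inl ⟨i + m, by rw [pow_add, mul_assoc]⟩)
    · exact Or.inr (Or.inr ⟨a, l, b + m, by rw [pow_add]; simp only [mul_assoc]⟩)
  have stepr : ∀ (h : Pm), ((∃ i : ℕ, h = X ^ i) ∨ (∃ i : ℕ, h = s * X ^ i) ∨
      (∃ (a : ℕ) (l : Fin 5) (b : ℕ), h = X ^ a * r l * X ^ b)) →
      ((∃ i : ℕ, h * r1 = X ^ i) ∨ (∃ i : ℕ, h * r1 = s * X ^ i) ∨
      (∃ (a : ℕ) (l : Fin 5) (b : ℕ), h * r1 = X ^ a * r l * X ^ b)) := by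
    rintro h (⟨i, rfl⟩ | ⟨i, rfl⟩ | ⟨a, l, b, rfl⟩)
    · exact Or.inr (Or.inr ⟨i, 1, 0, by rw [pow_zero, mul_one]; rfl⟩)
    · refine Or.inr (Or.inr ⟨7 * (i % 8) + 6, 4, 4, ?_⟩)
      rw [X_pow_mod i]
      exact s_X ⟨i % 8, Nat.mod_lt _ (by norm_num)⟩
    · have hsX : ∀ i : Fin 8, s * X ^ (i : ℕ) = X ^ (7 * (i : ℕ)) * s := by decide
      have hXs : ∀ i : Fin 8, X ^ (i : ℕ) * s = s * X ^ (7 * (i : ℕ)) := by decide
      rcases table l ⟨b % 8, Nat.mod_lt _ (by norm_num)⟩ with ⟨i, hi⟩ | ⟨i, hi⟩ | ⟨a', l', b', hi⟩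
      · left
        refine ⟨a + i, ?_⟩
        rw [X_pow_mod b, mul_assoc, mul_assoc, ← mul_assoc (r l)]
        rw [show r l * X ^ (b % 8) * r1 = X ^ (i : ℕ) from hi, pow_add]
      · right; left
        refine ⟨7 * (a % 8) + i, ?_⟩
        rw [X_pow_mod b, mul_assoc, mul_assoc, ← mul_assoc (r l)]
        rw [show r l * X ^ (b % 8) * r1 = s * X ^ (i : ℕ) from hi, ← mul_assoc, X_pow_mod a,
          show X ^ (a % 8) * s = s * X ^ (7 * (a % 8)) from hXs ⟨a % 8, Nat.mod_lt _ (by norm_num)⟩,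
          pow_add, mul_assoc]
      · right; right
        refine ⟨a + a', l', b', ?_⟩
        rw [X_pow_mod b, mul_assoc, mul_assoc, ← mul_assoc (r l)]
        rw [show r l * X ^ (b % 8) * r1 = X ^ (a' : ℕ) * r l' * X ^ (b' : ℕ) from hi, pow_add]
        simp only [mul_assoc]
  refine Subgroup.closure_induction_right (p := fun g _ => (∃ i : ℕ, g = X ^ i) ∨
    (∃ i : ℕ, g = s * X ^ i) ∨ (∃ (a : ℕ) (l : Fin 5) (b : ℕ), g = X ^ a * r l * X ^ b))
    ?_ ?_ ?_ hg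
  · exact Or.inl ⟨0, (pow_zero X).symm⟩
  · rintro h _ y hy ih
    rcases hy with rfl | hy
    · have := stepX h 1 ih
      rwa [pow_one] at this
    · rw [Set.mem_singleton_iff] at hy
      rw [hy]; exact stepr h ih
  · rintro h _ y hy ih
    rcases hy with rfl | hy
    · rw [hXinv]; exact stepX h 7 ih
    · rw [Set.mem_singleton_iff] at hy
      rw [hy, hr1]; exact stepr h ih

/-- A subgroup containing a `(2,3,7)`-generated perfect group is not soluble. -/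
lemma not_solvable_of_237 {K : Type} [Group K] (H : Subgroup K) (u v : K) (hu : u ∈ H) (hv : v ∈ H)
    (hu2 : u ^ 2 = 1) (hv3 : v ^ 3 = 1) (huv : (u * v) ^ 7 = 1) (hne : u ≠ 1) :
    ¬ Group.IsSolvable H := by
  intro hsol
  set L : Subgroup K := Subgroup.closure {u, v} with hL
  have hLH : L ≤ H := by
    rw [hL, Subgroup.closure_le]
    rintro x (rfl | hx)
    · exact hu
    · rw [Set.mem_singleton_iff] at hx; rw [hx]; exact hv
  have hsolL : Group.IsSolvable L :=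
    Group.isSolvable_of_isSolvable_injective (Subgroup.inclusion_injective hLH)
  have huL : u ∈ L := Subgroup.subset_closure (by simp)
  have hvL : v ∈ L := Subgroup.subset_closure (by simp)
  have : Nontrivial L := ⟨⟨⟨u, huL⟩, 1, fun h => hne (congrArg Subtype.val h)⟩⟩
  have hlt := Group.IsSolvable.commutator_lt_top_of_nontrivial L
  apply hlt.ne
  -- the abelianization is trivial
  have hab : ∀ x : L, Abelianization.of x = 1 := by
    have h1 : (Abelianization.of (⟨u, huL⟩ : L)) ^ 2 = 1 := by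
      rw [← map_pow]
      have : (⟨u, huL⟩ : L) ^ 2 = 1 := Subtype.ext hu2
      rw [this, map_one]
    have h2 : (Abelianization.of (⟨v, hvL⟩ : L)) ^ 3 = 1 := by
      rw [← map_pow]
      have : (⟨v, hvL⟩ : L) ^ 3 = 1 := Subtype.ext hv3
      rw [this, map_one]
    have h3 : (Abelianization.of (⟨u, huL⟩ : L) * Abelianization.of (⟨v, hvL⟩ : L)) ^ 7 = 1 := by
      rw [← map_mul, ← map_pow]
      have : ((⟨u, huL⟩ : L) * ⟨v, hvL⟩) ^ 7 = 1 := Subtype.ext huv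
      rw [this, map_one]
    set a := Abelianization.of (⟨u, huL⟩ : L) with ha
    set b := Abelianization.of (⟨v, hvL⟩ : L) with hb
    have h4 : a * b = 1 := by
      rw [mul_pow] at h3
      have h5 : a ^ 7 = a := by
        rw [show 7 = 2 * 3 + 1 from rfl, pow_succ, pow_mul, h1, one_pow, one_mul]
      have h6 : b ^ 7 = b := by
        rw [show 7 = 3 * 2 + 1 from rfl, pow_succ, pow_mul, h2, one_pow, one_mul]
      rwa [h5, h6] at h3
    have h7 : a = 1 := by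
      have h8 : a = b⁻¹ := eq_inv_of_mul_eq_one_left h4
      have h9 : a ^ 3 = 1 := by rw [h8, inv_pow, h2, inv_one]
      calc a = a ^ 3 * (a ^ 2)⁻¹ := by group
        _ = 1 := by rw [h9, h1, inv_one, mul_one]
    have h8 : b = 1 := by rwa [h7, one_mul] at h4
    rintro ⟨x, hx⟩
    refine Subgroup.closure_induction (p := fun y hy => Abelianization.of (⟨y, hy⟩ : L) = 1)
      ?_ ?_ ?_ ?_ hx
    · rintro y (rfl | hy)
      · exact h7
      · rw [Set.mem_singleton_iff] at hy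
        subst hy
        exact h8
    · exact map_one _
    · intro y z hy hz h1 h2
      have : (⟨y * z, mul_mem hy hz⟩ : L) = ⟨y, hy⟩ * ⟨z, hz⟩ := rfl
      rw [this, map_mul, h1, h2, mul_one]
    · intro y hy h1
      have : (⟨y⁻¹, inv_mem hy⟩ : L) = (⟨y, hy⟩ : L)⁻¹ := rfl
      rw [this, map_inv, h1, inv_one]
  rw [eq_top_iff]
  intro x _
  have h := hab x
  rwa [← MonoidHom.mem_ker, Abelianization.ker_of] at h

abbrev PG : Type := PGL

/-- The element of order eight. -/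
def x0 : PG := ⟨X, Subgroup.subset_closure (by simp)⟩

set_option maxRecDepth 100000 in
/-- If `⟨x, y⟩` is soluble then `y` lies in the dihedral group. -/
lemma sol_dihedral (y : PG) (hy : y ∈ Sol x0) :
    (∃ i : Fin 8, y.1 = X ^ (i : ℕ)) ∨ (∃ i : Fin 8, y.1 = s * X ^ (i : ℕ)) := by
  rcases normal_form y.1 y.2 with ⟨i, hi⟩ | ⟨i, hi⟩ | ⟨a, l, b, hi⟩
  · left; exact ⟨⟨i % 8, Nat.mod_lt _ (by norm_num)⟩, by rw [hi, X_pow_mod i]⟩
  · right; exact ⟨⟨i % 8, Nat.mod_lt _ (by norm_num)⟩, by rw [hi, X_pow_mod i]⟩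
  · exfalso
    have hsol : Group.IsSolvable (Subgroup.closure ({x0, y} : Set PG)) := hy
    have hx0 : x0 ∈ Subgroup.closure ({x0, y} : Set PG) := Subgroup.subset_closure (by simp)
    have hyc : y ∈ Subgroup.closure ({x0, y} : Set PG) := Subgroup.subset_closure (by simp)
    set z : PG := (x0 ^ a)⁻¹ * y * (x0 ^ b)⁻¹ with hz
    have hzc : z ∈ Subgroup.closure ({x0, y} : Set PG) :=
      mul_mem (mul_mem (inv_mem (pow_mem hx0 _)) hyc) (inv_mem (pow_mem hx0 _))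
    have hzv : z.1 = r l := by
      rw [hz]
      show (X ^ a)⁻¹ * y.1 * (X ^ b)⁻¹ = r l
      rw [hi]; group
    -- for each `l` a pair of words generating a perfect subgroup
    have main : ∀ (u v : PG), u ∈ Subgroup.closure ({x0, y} : Set PG) →
        v ∈ Subgroup.closure ({x0, y} : Set PG) → u.1 ^ 2 = 1 → v.1 ^ 3 = 1 →
        (u.1 * v.1) ^ 7 = 1 → u.1 ≠ 1 → False := by
      intro u v hu hv h1 h2 h3 h4
      exact not_solvable_of_237 _ u v hu hv (Subtype.ext h1) (Subtype.ext h2) (Subtype.ext h3)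
        (fun h => h4 (congrArg Subtype.val h)) hsol
    have hval : ∀ (w : PG), (x0 * w).1 = X * w.1 := fun _ => rfl
    fin_cases l
    · refine main (x0 * x0 * x0 * z) (z * z) (mul_mem (mul_mem (mul_mem hx0 hx0) hx0) hzc)
        (mul_mem hzc hzc) ?_ ?_ ?_ ?_
      · show (X * X * X * z.1) ^ 2 = 1
        try rw [hzv]
        decide
      · show (z.1 * z.1) ^ 3 = 1
        try rw [hzv]
        decide
      · show (X * X * X * z.1 * (z.1 * z.1)) ^ 7 = 1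
        try rw [hzv]
        decide
      · show X * X * X * z.1 ≠ 1
        try rw [hzv]
        decide
    · refine main (x0 * x0 * x0 * x0) (x0 * z * x0⁻¹ * x0⁻¹ * x0⁻¹ * z) (mul_mem (mul_mem (mul_mem hx0 hx0) hx0) hx0)
        (mul_mem (mul_mem (mul_mem (mul_mem (mul_mem hx0 hzc) (inv_mem hx0)) (inv_mem hx0)) (inv_mem hx0)) hzc) ?_ ?_ ?_ ?_
      · show (X * X * X * X) ^ 2 = 1
        try rw [hzv]
        decide
      · show (X * z.1 * X⁻¹ * X⁻¹ * X⁻¹ * z.1) ^ 3 = 1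
        try rw [hzv]
        decide
      · show (X * X * X * X * (X * z.1 * X⁻¹ * X⁻¹ * X⁻¹ * z.1)) ^ 7 = 1
        try rw [hzv]
        decide
      · show X * X * X * X ≠ 1
        try rw [hzv]
        decide
    · refine main (x0 * x0 * z⁻¹) (x0⁻¹ * z * x0) (mul_mem (mul_mem hx0 hx0) (inv_mem hzc))
        (mul_mem (mul_mem (inv_mem hx0) hzc) hx0) ?_ ?_ ?_ ?_
      · show (X * X * z.1⁻¹) ^ 2 = 1
        try rw [hzv]
        decide
      · show (X⁻¹ * z.1 * X) ^ 3 = 1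
        try rw [hzv]
        decide
      · show (X * X * z.1⁻¹ * (X⁻¹ * z.1 * X)) ^ 7 = 1
        try rw [hzv]
        decide
      · show X * X * z.1⁻¹ ≠ 1
        try rw [hzv]
        decide
    · refine main (x0 * x0 * x0 * x0) (z * x0 * x0 * x0 * z * x0⁻¹ * x0⁻¹ * z) (mul_mem (mul_mem (mul_mem hx0 hx0) hx0) hx0)
        (mul_mem (mul_mem (mul_mem (mul_mem (mul_mem (mul_mem (mul_mem hzc hx0) hx0) hx0) hzc) (inv_mem hx0)) (inv_mem hx0)) hzc) ?_ ?_ ?_ ?_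
      · show (X * X * X * X) ^ 2 = 1
        try rw [hzv]
        decide
      · show (z.1 * X * X * X * z.1 * X⁻¹ * X⁻¹ * z.1) ^ 3 = 1
        try rw [hzv]
        decide
      · show (X * X * X * X * (z.1 * X * X * X * z.1 * X⁻¹ * X⁻¹ * z.1)) ^ 7 = 1
        try rw [hzv]
        decide
      · show X * X * X * X ≠ 1
        try rw [hzv]
        decide
    · refine main (x0 * x0 * x0 * x0) (z) (mul_mem (mul_mem (mul_mem hx0 hx0) hx0) hx0)
        hzc ?_ ?_ ?_ ?_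
      · show (X * X * X * X) ^ 2 = 1
        try rw [hzv]
        decide
      · show (z.1) ^ 3 = 1
        try rw [hzv]
        decide
      · show (X * X * X * X * (z.1)) ^ 7 = 1
        try rw [hzv]
        decide
      · show X * X * X * X ≠ 1
        try rw [hzv]
        decide

/-- Membership in the dihedral group, as a statement about permutations. -/
def InD (g : Pm) : Prop := (∃ i : Fin 8, g = X ^ (i : ℕ)) ∨ (∃ i : Fin 8, g = s * X ^ (i : ℕ))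

lemma comm_one : ∀ g h : Pm, InD g → InD h → ∃ i : Fin 4, g⁻¹ * h⁻¹ * g * h = X ^ (2 * (i : ℕ)) := by
  have h1 : ∀ i j : Fin 8, ∃ k : Fin 4,
      (X ^ (i : ℕ))⁻¹ * (X ^ (j : ℕ))⁻¹ * X ^ (i : ℕ) * X ^ (j : ℕ) = X ^ (2 * (k : ℕ)) := by decide
  have h2 : ∀ i j : Fin 8, ∃ k : Fin 4, (X ^ (i : ℕ))⁻¹ * (s * X ^ (j : ℕ))⁻¹ * X ^ (i : ℕ) *
      (s * X ^ (j : ℕ)) = X ^ (2 * (k : ℕ)) := by decide
  have h3 : ∀ i j : Fin 8, ∃ k : Fin 4, (s * X ^ (i : ℕ))⁻¹ * (X ^ (j : ℕ))⁻¹ * (s * X ^ (i : ℕ)) *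
      X ^ (j : ℕ) = X ^ (2 * (k : ℕ)) := by decide
  have h4 : ∀ i j : Fin 8, ∃ k : Fin 4, (s * X ^ (i : ℕ))⁻¹ * (s * X ^ (j : ℕ))⁻¹ *
      (s * X ^ (i : ℕ)) * (s * X ^ (j : ℕ)) = X ^ (2 * (k : ℕ)) := by decide
  rintro g h (⟨i, rfl⟩ | ⟨i, rfl⟩) (⟨j, rfl⟩ | ⟨j, rfl⟩)
  · exact h1 i j
  · exact h2 i j
  · exact h3 i j
  · exact h4 i j

lemma comm_two : ∀ (i : Fin 4) (h : Pm), InD h → ∃ k : Fin 2,
    (X ^ (2 * (i : ℕ)))⁻¹ * h⁻¹ * X ^ (2 * (i : ℕ)) * h = X ^ (4 * (k : ℕ)) := by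
  have h1 : ∀ (i : Fin 4) (j : Fin 8), ∃ k : Fin 2,
      (X ^ (2 * (i : ℕ)))⁻¹ * (X ^ (j : ℕ))⁻¹ * X ^ (2 * (i : ℕ)) * X ^ (j : ℕ) =
        X ^ (4 * (k : ℕ)) := by decide
  have h2 : ∀ (i : Fin 4) (j : Fin 8), ∃ k : Fin 2, (X ^ (2 * (i : ℕ)))⁻¹ * (s * X ^ (j : ℕ))⁻¹ *
      X ^ (2 * (i : ℕ)) * (s * X ^ (j : ℕ)) = X ^ (4 * (k : ℕ)) := by decide
  rintro i h (⟨j, rfl⟩ | ⟨j, rfl⟩)
  · exact h1 i j
  · exact h2 i j

lemma comm_three : ∀ (k : Fin 2) (h : Pm), InD h →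
    (X ^ (4 * (k : ℕ)))⁻¹ * h⁻¹ * X ^ (4 * (k : ℕ)) * h = 1 := by
  have h1 : ∀ (i : Fin 2) (j : Fin 8), (X ^ (4 * (i : ℕ)))⁻¹ * (X ^ (j : ℕ))⁻¹ * X ^ (4 * (i : ℕ)) *
      X ^ (j : ℕ) = 1 := by decide
  have h2 : ∀ (i : Fin 2) (j : Fin 8), (X ^ (4 * (i : ℕ)))⁻¹ * (s * X ^ (j : ℕ))⁻¹ *
      X ^ (4 * (i : ℕ)) * (s * X ^ (j : ℕ)) = 1 := by decide
  rintro i h (⟨j, rfl⟩ | ⟨j, rfl⟩)
  · exact h1 i j
  · exact h2 i j

lemma leftNormed_one (l : List PG) : leftNormed 1 l = 1 := by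
  induction l with
  | nil => rfl
  | cons b l ih =>
    show leftNormed ((1 : PG)⁻¹ * b⁻¹ * 1 * b) l = 1
    rw [show (1 : PG)⁻¹ * b⁻¹ * 1 * b = 1 by group]
    exact ih

lemma leftNormed_eq_one (a : PG) (l : List PG) (hl : 3 ≤ l.length) (ha : a ∈ Sol x0)
    (h : ∀ b ∈ l, b ∈ Sol x0) : leftNormed a l = 1 := by
  rcases l with _ | ⟨b1, _ | ⟨b2, _ | ⟨b3, l⟩⟩⟩
  · simp at hl
  · simp at hl
  · simp at hl
  · have ha' := sol_dihedral a ha
    have h1 := sol_dihedral b1 (h b1 (by simp))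
    have h2 := sol_dihedral b2 (h b2 (by simp))
    have h3 := sol_dihedral b3 (h b3 (by simp))
    set c1 : PG := a⁻¹ * b1⁻¹ * a * b1 with hc1
    set c2 : PG := c1⁻¹ * b2⁻¹ * c1 * b2 with hc2
    set c3 : PG := c2⁻¹ * b3⁻¹ * c2 * b3 with hc3
    have e1 : ∃ i : Fin 4, c1.1 = X ^ (2 * (i : ℕ)) := comm_one a.1 b1.1 ha' h1
    obtain ⟨i, hi⟩ := e1
    have e2 : ∃ k : Fin 2, c2.1 = X ^ (4 * (k : ℕ)) := by
      show ∃ k : Fin 2, c1.1⁻¹ * b2.1⁻¹ * c1.1 * b2.1 = X ^ (4 * (k : ℕ))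
      rw [hi]; exact comm_two i b2.1 h2
    obtain ⟨k, hk⟩ := e2
    have e3 : c3 = 1 := by
      apply Subtype.ext
      show c2.1⁻¹ * b3.1⁻¹ * c2.1 * b3.1 = 1
      rw [hk]; exact comm_three k b3.1 h3
    show leftNormed c3 l = 1
    rw [e3]; exact leftNormed_one l

set_option maxRecDepth 100000 in
lemma not_solvable_PG : ¬ Group.IsSolvable PG := by
  intro hsol
  have hsolT : Group.IsSolvable (⊤ : Subgroup PG) :=
    Group.isSolvable_of_isSolvable_injective (Subgroup.subtype_injective (⊤ : Subgroup PG))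
  let y : PG := ⟨r1, Subgroup.subset_closure (by simp)⟩
  refine not_solvable_of_237 (⊤ : Subgroup PG) (x0 * x0 * x0 * x0)
    (x0 * y * x0⁻¹ * x0⁻¹ * x0⁻¹ * y) trivial trivial (Subtype.ext ?_) (Subtype.ext ?_)
    (Subtype.ext ?_) (fun h => ?_) hsolT
  · show (X * X * X * X) ^ 2 = 1
    decide
  · show (X * r1 * X⁻¹ * X⁻¹ * X⁻¹ * r1) ^ 3 = 1
    decide
  · show (X * X * X * X * (X * r1 * X⁻¹ * X⁻¹ * X⁻¹ * r1)) ^ 7 = 1
    decide
  · have h' : X * X * X * X = 1 := congrArg Subtype.val h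
    revert h'
    decide

/-- **Disproof for every `k ≥ 4`, with one group and one element.**
There are a finite group `G` and `x ∈ G` such that for every `k ≥ 4` all left-normed commutators
of weight `k` with entries in the solubilizer of `x` are trivial, although `γ_k(G) ≠ 1`. -/
theorem result :
    ∃ (G : Type) (_ : Group G) (_ : Finite G) (x : G), ∀ k : ℕ, 4 ≤ k →
      (∀ (a : G) (l : List G), l.length + 1 = k → a ∈ Sol x → (∀ b ∈ l, b ∈ Sol x) →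
        leftNormed a l = 1) ∧
      (⊤ : Subgroup G).lowerCentralSeries (k - 1) ≠ ⊥ := by
  refine ⟨PG, inferInstance, inferInstance, x0, fun k hk => ⟨?_, ?_⟩⟩
  · intro a l hl ha h
    exact leftNormed_eq_one a l (by omega) ha h
  · intro h
    have hnil : Group.IsNilpotent PG := Subgroup.nilpotent_iff_lowerCentralSeries.2 ⟨k - 1, h⟩
    exact not_solvable_PG inferInstance

end Pool.Agent.Results.MP_7555fa_al.SolubilizerLaws
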